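import Pool.Agent.helper60.MW.Spec

set_option autoImplicit false

/-!
Row STP of the project MW: one step of the multiscale construction.
-/

namespace Pool.Agent.MW

open MeasureTheory Set Pool.Agent.helper17.Worm

/-- a subcell number is at distance at most `3/2 a` from the corner -/
lemma STP_dist (p : ℂ) (a b : ℝ) (q i j : ℕ) (hb : 0 < b) (ha : a = q * b) (hi : i < q)
    (hj : j < q) : ‖sub p b i j - p‖ ≤ 3 / 2 * a := by
  have hx0 : 0 ≤ (i : ℝ) * b := by positivity
  have hy0 : 0 ≤ (j : ℝ) * b := by positivity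
  have hx : (i : ℝ) * b ≤ a := by
    rw [ha]
    have : (i : ℝ) ≤ q := by exact_mod_cast hi.le
    exact mul_le_mul_of_nonneg_right this hb.le
  have hy : (j : ℝ) * b ≤ a := by
    rw [ha]
    have : (j : ℝ) ≤ q := by exact_mod_cast hj.le
    exact mul_le_mul_of_nonneg_right this hb.le
  have e : sub p b i j - p = ((i * b : ℝ) : ℂ) + ((j * b : ℝ) : ℂ) * Complex.I := by
    unfold sub; ring
  rw [e, Complex.norm_add_mul_I]
  refine Real.sqrt_le_iff.mpr ⟨by linarith, ?_⟩
  nlinarith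

/-- reduction of the angle modulo `2π` -/
lemma STP_angle (θ : ℝ) : 0 ≤ θ - (⌊θ / (2 * Real.pi)⌋ : ℤ) * (2 * Real.pi) ∧
    θ - (⌊θ / (2 * Real.pi)⌋ : ℤ) * (2 * Real.pi) ≤ 2 * Real.pi := by
  have h2pi : (0 : ℝ) < 2 * Real.pi := by have := Real.pi_pos; positivity
  constructor
  · have := Int.floor_le (θ / (2 * Real.pi))
    rw [le_div_iff₀ h2pi] at this
    linarith
  · have := (Int.lt_floor_add_one (θ / (2 * Real.pi))).le
    rw [div_le_iff₀ h2pi] at this
    linarith

theorem STP (hCHO : CHO_stmt) (hBAL : BAL_stmt) (hMEA : MEA_stmt) (hNUM : NUM_stmt) :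
    STP_stmt := by
  classical
  intro ι _ X hX hvol k q B p a b s h G hk hq hB hb ha ha2 hp hs hh hsh hnum hG
  have hpi := Real.pi_pos
  have hq' : (1 : ℝ) ≤ q := by exact_mod_cast hq
  have hba : b ≤ a := by
    rw [ha]
    nlinarith
  have hb2 : b ≤ 1 / 2 := hba.trans ha2
  have ha0 : 0 < a := lt_of_lt_of_le hb hba
  have hBk : 1 ≤ B * k := Nat.succ_le_of_lt (Nat.mul_pos hB hk)
  set d : ℝ := h * b / 4 with hd
  have hd0 : 0 < d := by rw [hd]; positivity
  have hnum' := hNUM (Fintype.card ι) (B * k) b s h hBk hb hb2 hs hh hsh hnum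
  rw [← hd] at hnum'
  have hv0 : 0 < Real.pi * d ^ 3 / 16 := by positivity
  obtain ⟨S, hS⟩ := hCHO ι X hX hvol k q B p a b (s + h) (s + 2 * h) (-(d / 8))
    (2 * Real.pi + d / 8) (Real.pi * d ^ 3 / 16) hk hq hB hb ha (by linarith) (by linarith)
    (by linarith) (by linarith) hv0 hnum'
  refine ⟨fun e => sub (p e.1) b (S e).1 (S e).2, fun e => ?_, fun g hg => ?_⟩
  · exact STP_dist (p e.1) a b q _ _ hb ha (S e).1.isLt (S e).2.isLt
  · by_contra hcon
    push Not at hcon
    obtain ⟨θ, v⟩ := g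
    set n : ℤ := ⌊θ / (2 * Real.pi)⌋ with hn
    obtain ⟨h0, h1⟩ := STP_angle θ
    rw [← hn] at h0 h1
    set θ0 := θ - n * (2 * Real.pi) with hθ0
    have hocc : ∀ A : Set ℂ, occ X (θ0, v) A = occ X (θ, v) A := fun A => occ_periodic X A θ v n
    have hbad : B ≤ nbad X (θ0, v) p a s := by
      have h2 := hG _ hg
      unfold nbad at h2 ⊢
      simp only [hocc]
      exact h2
    have hfull : Full X (θ0, v) p b ((s + 2 * h) + 4 * d / b) S := by
      intro e
      rw [hocc]
      refine lt_of_le_of_lt ?_ (hcon e)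
      have e1 : 4 * d / b = h := by rw [hd]; field_simp
      rw [e1]
      have : 0 ≤ b ^ 2 := by positivity
      nlinarith
    have hsub : {g' : ℝ × ℂ | |θ0 - g'.1| ≤ d / 8 ∧ ‖v - g'.2‖ ≤ d / 2} ⊆
        Fail X p a b (s + h) (s + 2 * h) B S := by
      rintro g' ⟨h2, h3⟩
      have h4 := hBAL ι X hX k q B p a b s (s + 2 * h) d S (θ0, v) g' hd0
        (by rw [hd]; nlinarith) hq ha ha2 hp hbad hfull h2 h3
      refine ⟨h4.1.trans ?_, h4.2⟩
      unfold nbad
      refine Finset.card_le_card ?_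
      intro i hi
      rw [Finset.mem_filter] at hi ⊢
      refine ⟨hi.1, hi.2.trans ?_⟩
      have h5 : 4 * d / a ≤ h := by
        rw [div_le_iff₀ ha0, hd]
        nlinarith
      have : 0 ≤ a ^ 2 := by positivity
      nlinarith
    have h6 := (hMEA d θ0 v hd0 h0 h1).trans (measure_mono hsub)
    exact absurd (lt_of_le_of_lt h6 hS) (lt_irrefl _)

end Pool.Agent.MW
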